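import Pool.Agent.helper22.GS.Spec

set_option autoImplicit false

namespace Pool.Agent.GS

open Module

noncomputable section

/-- Lower bound. -/
theorem LB (hPD : PD_stmt) : LB_stmt := by
  intro F V _ _ _ _ _ B hB w a k g hg r hr hrF hdvd
  have hfV : Finite V := Module.finite_of_finite F
  set H := Subgroup.closure (Set.range fun i => g i * tv B w a * (g i)⁻¹) with hH
  have hfH : Finite H := inferInstance
  have hHS : H ≤ SpG B := by
    rw [hH, Subgroup.closure_le]
    rintro _ ⟨i, rfl⟩
    exact (SpG B).mul_mem ((SpG B).mul_mem (hg i) (tv_mem hB w a)) ((SpG B).inv_mem (hg i))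
  have hfact : Fact r.Prime := ⟨hr⟩
  obtain ⟨h, hh⟩ := exists_prime_orderOf_dvd_card' r hdvd
  have h1 : (h : Equiv.Perm V) ^ r = 1 := by
    have h2 := pow_orderOf_eq_one h
    rw [hh] at h2
    have h3 := congrArg (Subtype.val : H → Equiv.Perm V) h2
    exact h3
  have h2 : (h : Equiv.Perm V) ≠ 1 := by
    intro h3
    have h4 : h = 1 := Subtype.ext h3
    rw [h4, orderOf_one] at hh
    exact hr.one_lt.ne hh
  obtain ⟨U, i, hU, hi1, hi2, hi3⟩ := hPD B hB h (hHS h.2) r hr hrF h1 h2
  refine ⟨i, hi1, ?_, hi3⟩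
  -- the common fixed space
  let T : V →ₗ[F] (Fin k → F) := LinearMap.pi (fun i => B.flip (g i w))
  have hT : ∀ (x : V) (i : Fin k), T x i = B x (g i w) := fun x i => rfl
  have hfix : ∀ p ∈ H, ∀ x : V, T x = 0 → p x = x := by
    intro p hp
    rw [hH] at hp
    refine Subgroup.closure_induction (p := fun p _ => ∀ x : V, T x = 0 → p x = x) ?_ ?_ ?_ ?_ hp
    · rintro _ ⟨i, rfl⟩ x hx
      show (g i * tv B w a * (g i)⁻¹) x = x
      rw [tv_conj_sp hB (hg i), tv_apply hB]
      have h3 : B x (g i w) = 0 := by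
        rw [← hT, hx]
        rfl
      rw [h3, mul_zero, zero_smul, add_zero]
    · intro x _
      rfl
    · intro p q _ _ hp hq x hx
      rw [Equiv.Perm.mul_apply, hq x hx, hp x hx]
    · intro p _ hp x hx
      have h3 := hp x hx
      nth_rewrite 1 [← h3]
      exact invp p x
  have hle : LinearMap.ker T ≤ U := by
    intro x hx
    rw [hU]
    exact hfix h h.2 x hx
  have h3 := Submodule.finrank_mono hle
  have h4 := LinearMap.finrank_range_add_finrank_ker T
  have h5 : finrank F (LinearMap.range T) ≤ k := by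
    have h6 := Submodule.finrank_le (LinearMap.range T)
    rwa [Module.finrank_fin_fun] at h6
  omega

end

end Pool.Agent.GS
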