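import Pool.Agent.helper22.GS.Spec

set_option autoImplicit false

namespace Pool.Agent.GS

open Module

noncomputable section

/-- In a finite field two nonzero elements of the same class have a square product. -/
theorem MOA_sq {F : Type} [Field F] [Finite F] (a b : F) (ha : a ≠ 0) (hb : b ≠ 0)
    (h : IsSquare a ↔ IsSquare b) : IsSquare (a * b) := by
  classical
  have : Fintype F := Fintype.ofFinite F
  by_cases hs : IsSquare a
  · exact hs.mul (h.mp hs)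
  · have hb' : ¬ IsSquare b := fun hh => hs (h.mpr hh)
    have h2 : ringChar F ≠ 2 := by
      intro h2
      exact hs (FiniteField.isSquare_of_char_two h2 a)
    have h3 : quadraticChar F a = -1 := (quadraticChar_neg_one_iff_not_isSquare).mpr hs
    have h4 : quadraticChar F b = -1 := (quadraticChar_neg_one_iff_not_isSquare).mpr hb'
    have h5 : quadraticChar F (a * b) = 1 := by
      rw [map_mul, h3, h4]
      norm_num
    exact (quadraticChar_one_iff_isSquare (mul_ne_zero ha hb)).mp h5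

theorem MOA_nrm_prod {F : Type} [Field F] (τ δ : F) (k : ℕ) :
    ∏ i, nrm τ δ (k := k) i = δ * (-τ) ^ k := by
  rw [Fintype.prod_sum_type, Fintype.prod_sum_type]
  have h1 : ∏ a : Unit, nrm τ δ (k := k) (Sum.inl a) = δ := by
    rw [Finset.prod_eq_single ()]
    · rfl
    · intro b _ hb
      exact absurd rfl hb
    · intro h
      exact absurd (Finset.mem_univ ()) h
  have h2 : ∏ a : Fin k, nrm τ δ (k := k) (Sum.inr (Sum.inl a)) = 1 := by
    apply Finset.prod_eq_one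
    intro i _
    rfl
  have h3 : ∏ a : Fin k, nrm τ δ (k := k) (Sum.inr (Sum.inr a)) = (-τ) ^ k := by
    have h4 : ∀ a ∈ (Finset.univ : Finset (Fin k)),
        nrm τ δ (k := k) (Sum.inr (Sum.inr a)) = -τ := fun a _ => rfl
    rw [Finset.prod_congr rfl h4, Finset.prod_const, Finset.card_univ, Fintype.card_fin]
  rw [h1, h2, h3, one_mul]

theorem MOA_nrm_ne {F : Type} [Field F] (τ δ : F) (k : ℕ) (hτ : τ ≠ 0) (hδ : δ ≠ 0)
    (i : Unit ⊕ (Fin k ⊕ Fin k)) : nrm τ δ i ≠ 0 := by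
  rcases i with i | i | i
  · exact hδ
  · exact one_ne_zero
  · exact neg_ne_zero.mpr hτ

/-- `m = 2k+1` odd, odd characteristic. -/
theorem MOA (hBF : BF_stmt) (hDD : DD_stmt) (hDG : DG_stmt) (hHW : HW_stmt) (hMU : MU_stmt) :
    MOA_stmt := by
  intro F K _ _ _ _ _ k hchar hk hfin σ τ hσ hτ hστ htr
  have hFfin : Finite F := Finite.of_injective (algebraMap F K) (algebraMap F K).injective
  have hS1 : Sym (bf F K 1) := (hBF (F := F) (K := K)).1 1 one_ne_zero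
  have hSσ : Sym (bf F K σ) := (hBF (F := F) (K := K)).1 σ hσ
  have hcard : Fintype.card (Fin (2 * k + 1)) = Fintype.card (Unit ⊕ (Fin k ⊕ Fin k)) := by
    rw [Fintype.card_sum, Fintype.card_sum, Fintype.card_fin, Fintype.card_fin, Fintype.card_unit]
    ring
  let β₀ : Basis (Unit ⊕ (Fin k ⊕ Fin k)) F K :=
    (Module.finBasisOfFinrankEq F K hfin).reindex (Fintype.equivOfCardEq hcard)
  obtain ⟨hD1, -⟩ := hDD β₀ hchar 1 one_ne_zero
  obtain ⟨hDσ, hDs⟩ := hDD β₀ hchar σ hσ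
  obtain ⟨D1, hD1d⟩ : ∃ D, D = dt (bf F K 1) β₀ := ⟨_, rfl⟩
  obtain ⟨Dσ, hDσd⟩ : ∃ D, D = dt (bf F K σ) β₀ := ⟨_, rfl⟩
  rw [← hD1d] at hD1 hDs
  rw [← hDσd] at hDσ hDs
  have ht : (-τ) ^ k ≠ 0 := pow_ne_zero k (neg_ne_zero.mpr hτ)
  obtain ⟨t, htd⟩ : ∃ t, t = (-τ) ^ k := ⟨_, rfl⟩
  rw [← htd] at ht
  have hδ : D1 * t ≠ 0 := mul_ne_zero hD1 ht
  have hδ' : Dσ * t ≠ 0 := mul_ne_zero hDσ ht
  have hsq1 : IsSquare (dt (bf F K 1) β₀ * (D1 * t * (-τ) ^ k)) := by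
    rw [← hD1d, ← htd]
    exact ⟨D1 * t, by ring⟩
  have hsq2 : IsSquare (dt (bf F K σ) β₀ * (Dσ * t * (-τ) ^ k)) := by
    rw [← hDσd, ← htd]
    exact ⟨Dσ * t, by ring⟩
  obtain ⟨u0, hu0, hu0'⟩ := hMU k β₀ hchar hk σ τ (D1 * t) hσ hτ hδ hsq1 htr
  have hu0ne : u0 ≠ 0 := by
    intro h
    rw [h, map_zero] at hu0
    exact hδ hu0.symm
  have h3 : 3 ≤ finrank F K := by omega
  have hcond : finrank F K = 3 → Algebra.trace F K (σ * u0 ^ 2) = 0 →
      IsSquare (-(Dσ * t * dt (bf F K σ) β₀)) := by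
    intro hf3 htr0
    have hk1 : k = 1 := by omega
    have hτs : IsSquare τ := by
      by_contra hcon
      exact hu0' hk1 hcon htr0
    obtain ⟨s, hs⟩ := hτs
    rw [← hDσd]
    have ht1 : t = -τ := by rw [htd, hk1, pow_one]
    rw [ht1]
    refine ⟨s * Dσ, ?_⟩
    rw [hs]
    ring
  obtain ⟨w0, hw0tr, hw0⟩ := hHW β₀ hchar h3 σ u0 (Dσ * t) hσ hu0ne hδ' hcond
  have hp1 : IsSquare (dt (bf F K 1) β₀ * ∏ i, nrm τ (D1 * t) (k := k) i) := by
    rw [MOA_nrm_prod]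
    exact hsq1
  have hp2 : IsSquare (dt (bf F K σ) β₀ * ∏ i, nrm τ (Dσ * t) (k := k) i) := by
    rw [MOA_nrm_prod]
    exact hsq2
  obtain ⟨u, hu, hui⟩ := (hDG (bf F K 1) hchar hS1 β₀ (nrm τ (D1 * t))
    (MOA_nrm_ne τ (D1 * t) k hτ hδ) hp1).2 (Sum.inl ()) u0 hu0
  obtain ⟨w, hw, hwi⟩ := (hDG (bf F K σ) hchar hSσ β₀ (nrm τ (Dσ * t))
    (MOA_nrm_ne τ (Dσ * t) k hτ hδ') hp2).2 (Sum.inl ()) w0 hw0
  refine ⟨1, σ, D1 * t, Dσ * t, u, w, one_ne_zero, hσ, hδ, hδ', one_mul σ, hu, hw, ?_, ?_⟩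
  · obtain ⟨s, hs⟩ := MOA_sq τ (Dσ * D1) hτ (mul_ne_zero hDσ hD1) (hστ.symm.trans hDs.symm)
    refine ⟨s * t, ?_⟩
    have h5 : τ * (D1 * t) * (Dσ * t) = (τ * (Dσ * D1)) * (t * t) := by ring
    rw [h5, hs]
    ring
  · rw [hui, hwi]
    exact hw0tr

end

end Pool.Agent.GS
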