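import Pool.Agent.helper22.GS.Spec

set_option autoImplicit false

namespace Pool.Agent.GS

open Module

noncomputable section

/-- projection to the orthogonal complement of the hyperbolic pairs -/
def DSS_P {F V : Type} [Field F] [AddCommGroup V] [Module F V] (B : LinearMap.BilinForm F V)
    (μ : F) {k : ℕ} (e f : Fin k → V) : V →ₗ[F] V :=
  LinearMap.id - ∑ i, (μ⁻¹ • B.flip (f i)).smulRight (e i) +
    ∑ i, (μ⁻¹ • B.flip (e i)).smulRight (f i)

theorem DSS_P_apply {F V : Type} [Field F] [AddCommGroup V] [Module F V]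
    (B : LinearMap.BilinForm F V) (μ : F) {k : ℕ} (e f : Fin k → V) (w : V) :
    DSS_P B μ e f w = w - ∑ i, (μ⁻¹ * B w (f i)) • e i + ∑ i, (μ⁻¹ * B w (e i)) • f i := by
  unfold DSS_P
  rw [LinearMap.add_apply, LinearMap.sub_apply, LinearMap.sum_apply, LinearMap.sum_apply]
  rfl

/-- One more hyperbolic pair of fixed vectors. -/
theorem DSS (hDS2 : DS2_stmt) : DSS_stmt := by
  intro F V _ _ _ _ B hB y ψ ν hy l hl hψ hψl hyl μ hμ hμν k e f hk hfix hB0
  have hspan : Submodule.span F {u | y u = u} = ⊤ := hDS2 ψ l hl hψ hψl y hy.add hy.smul hyl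
  set P := DSS_P B μ e f with hP
  have hy0 : y 0 = 0 := by
    have h1 : y ((0 : F) • (0 : V)) = ψ 0 • y 0 := hy.smul 0 0
    rw [zero_smul, map_zero ψ, zero_smul] at h1
    exact h1
  have hysub : ∀ u v, y (u - v) = y u - y v := by
    intro u v
    have h1 := hy.add (u - v) v
    rw [sub_add_cancel] at h1
    rw [h1, add_sub_cancel_right]
  have hysum : ∀ (s : Fin k → V), y (∑ i, s i) = ∑ i, y (s i) := by
    intro s
    have h1 : ∀ t : Finset (Fin k), y (∑ i ∈ t, s i) = ∑ i ∈ t, y (s i) := by
      intro t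
      induction t using Finset.induction_on with
      | empty => rw [Finset.sum_empty, Finset.sum_empty, hy0]
      | insert a t ha ih => rw [Finset.sum_insert ha, Finset.sum_insert ha, hy.add, ih]
    exact h1 Finset.univ
  -- values of the form at fixed vectors
  have hval : ∀ u v, y u = u → y v = v → ψ (μ⁻¹ * B u v) = μ⁻¹ * B u v := by
    intro u v hu hv
    have h1 := hy.form u v
    rw [hu, hv] at h1
    have h2 : ψ μ ≠ 0 := by
      intro h
      rw [h, mul_zero] at hμν
      exact hμ hμν
    have hν : ν ≠ 0 := hy.ne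
    have h3 : ψ (μ⁻¹ * B u v) = (ψ μ)⁻¹ * ψ (B u v) := by
      rw [map_mul, map_inv₀]
    have h4 : μ⁻¹ * B u v = (ν * ψ μ)⁻¹ * (ν * ψ (B u v)) := by
      rw [← h1, ← hμν]
    rw [h3, h4]
    field_simp
  have hPfix : ∀ w, y w = w → y (P w) = P w := by
    intro w hw
    rw [hP, DSS_P_apply, hy.add, hysub, hysum, hysum, hw]
    congr 1
    · congr 1
      apply Finset.sum_congr rfl
      intro i _
      rw [hy.smul, hval w (f i) hw (hfix i).2, (hfix i).1]
    · apply Finset.sum_congr rfl
      intro i _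
      rw [hy.smul, hval w (e i) hw (hfix i).1, (hfix i).2]
  have hfe : ∀ i j, B (f i) (e j) = if i = j then -μ else 0 := by
    intro i j
    rw [hB.neg, (hB0 j i).2.2]
    by_cases h : i = j
    · rw [if_pos h, if_pos h.symm]
    · rw [if_neg h, if_neg (Ne.symm h), neg_zero]
  have hPe : ∀ w j, B (P w) (e j) = 0 := by
    intro w j
    rw [hP, DSS_P_apply, map_add, map_sub, LinearMap.add_apply, LinearMap.sub_apply, map_sum,
      map_sum, LinearMap.sum_apply, LinearMap.sum_apply]
    have h1 : ∑ i, (B ((μ⁻¹ * B w (f i)) • e i)) (e j) = 0 := by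
      apply Finset.sum_eq_zero
      intro i _
      rw [map_smul, LinearMap.smul_apply, (hB0 i j).1, smul_zero]
    have h2 : ∑ i, (B ((μ⁻¹ * B w (e i)) • f i)) (e j) = - B w (e j) := by
      rw [Finset.sum_eq_single j]
      · rw [map_smul, LinearMap.smul_apply, hfe, if_pos rfl, smul_eq_mul]
        field_simp
      · intro i _ hij
        rw [map_smul, LinearMap.smul_apply, hfe, if_neg hij, smul_zero]
      · intro h
        exact absurd (Finset.mem_univ j) h
    rw [h1, h2]
    ring
  have hPf : ∀ w j, B (P w) (f j) = 0 := by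
    intro w j
    rw [hP, DSS_P_apply, map_add, map_sub, LinearMap.add_apply, LinearMap.sub_apply, map_sum,
      map_sum, LinearMap.sum_apply, LinearMap.sum_apply]
    have h1 : ∑ i, (B ((μ⁻¹ * B w (f i)) • e i)) (f j) = B w (f j) := by
      rw [Finset.sum_eq_single j]
      · rw [map_smul, LinearMap.smul_apply, (hB0 j j).2.2, if_pos rfl, smul_eq_mul]
        field_simp
      · intro i _ hij
        rw [map_smul, LinearMap.smul_apply, (hB0 i j).2.2, if_neg hij, smul_zero]
      · intro h
        exact absurd (Finset.mem_univ j) h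
    have h2 : ∑ i, (B ((μ⁻¹ * B w (e i)) • f i)) (f j) = 0 := by
      apply Finset.sum_eq_zero
      intro i _
      rw [map_smul, LinearMap.smul_apply, (hB0 i j).2.1, smul_zero]
    rw [h1, h2]
    ring
  -- a fixed vector outside the span of the pairs
  obtain ⟨w₁, hw₁, hPw₁⟩ : ∃ w, y w = w ∧ P w ≠ 0 := by
    by_contra hcon
    push Not at hcon
    have h1 : P = 0 := by
      apply LinearMap.ext_on hspan
      intro u hu
      exact hcon u hu
    have h2 : (⊤ : Submodule F V) ≤ Submodule.span F (Set.range e) ⊔ Submodule.span F (Set.range f) := by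
      intro w _
      have h3 : P w = 0 := by rw [h1]; rfl
      rw [hP, DSS_P_apply] at h3
      have h4 : w = ∑ i, (μ⁻¹ * B w (f i)) • e i + ∑ i, (-(μ⁻¹ * B w (e i))) • f i := by
        have h5 : ∑ i, (-(μ⁻¹ * B w (e i))) • f i = - ∑ i, (μ⁻¹ * B w (e i)) • f i := by
          rw [← Finset.sum_neg_distrib]
          apply Finset.sum_congr rfl
          intro i _
          rw [neg_smul]
        rw [h5]
        have h6 := sub_eq_zero.mp (show w - (∑ i, (μ⁻¹ * B w (f i)) • e i -
          ∑ i, (μ⁻¹ * B w (e i)) • f i) = 0 by rw [← h3]; abel)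
        rw [← sub_eq_add_neg]
        exact h6
      rw [h4]
      apply Submodule.add_mem_sup
      · exact Submodule.sum_mem _ fun i _ => Submodule.smul_mem _ _ (Submodule.subset_span ⟨i, rfl⟩)
      · exact Submodule.sum_mem _ fun i _ => Submodule.smul_mem _ _ (Submodule.subset_span ⟨i, rfl⟩)
    have h3 := Submodule.finrank_mono h2
    rw [finrank_top] at h3
    have h4 := Submodule.finrank_add_le_finrank_add_finrank (Submodule.span F (Set.range e))
      (Submodule.span F (Set.range f))
    have h5 : finrank F (Submodule.span F (Set.range e)) ≤ k := by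
      have := finrank_range_le_card (R := F) e
      rwa [Fintype.card_fin] at this
    have h6 : finrank F (Submodule.span F (Set.range f)) ≤ k := by
      have := finrank_range_le_card (R := F) f
      rwa [Fintype.card_fin] at this
    omega
  have heq : ∀ w, B (P w₁) (P w) = B (P w₁) w := by
    intro w
    have hw : P w = w - ∑ i, (μ⁻¹ * B w (f i)) • e i + ∑ i, (μ⁻¹ * B w (e i)) • f i := by
      rw [hP, DSS_P_apply]
    rw [hw, map_add, map_sub, map_sum, map_sum]
    have h1 : ∑ i, (B (P w₁)) ((μ⁻¹ * B w (f i)) • e i) = 0 := by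
      apply Finset.sum_eq_zero
      intro i _
      rw [map_smul, hPe, smul_zero]
    have h2 : ∑ i, (B (P w₁)) ((μ⁻¹ * B w (e i)) • f i) = 0 := by
      apply Finset.sum_eq_zero
      intro i _
      rw [map_smul, hPf, smul_zero]
    rw [h1, h2, sub_zero, add_zero]
  obtain ⟨w₂, hw₂, hb⟩ : ∃ w, y w = w ∧ B (P w₁) (P w) ≠ 0 := by
    by_contra hcon
    push Not at hcon
    have h1 : B (P w₁) = 0 := by
      apply LinearMap.ext_on hspan
      intro u hu
      rw [← heq u]
      exact hcon u hu
    apply hPw₁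
    apply hB.nd
    intro v
    rw [h1]
    rfl
  have hf1 := hPfix w₁ hw₁
  have hf2 := hPfix w₂ hw₂
  refine ⟨P w₁, (μ⁻¹ * B (P w₁) (P w₂))⁻¹ • P w₂, hf1, ?_, ?_, ?_⟩
  · rw [hy.smul, map_inv₀, hval _ _ hf1 hf2, hf2]
  · rw [map_smul, smul_eq_mul]
    field_simp
  · intro i
    refine ⟨hPe _ _, hPf _ _, ?_, ?_⟩
    · rw [map_smul, LinearMap.smul_apply, hPe, smul_zero]
    · rw [map_smul, LinearMap.smul_apply, hPf, smul_zero]

end

end Pool.Agent.GS
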